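import Pool.Agent.Run7.h385.PO.Stm

/-! Piece WSMALL of the project PO: the size of the sieving level and of the modulus. -/

set_option autoImplicit false

namespace Pool.Agent.Run7.h215.PO

open Finset Filter
open Pool.Agent.H373R2.T7
open Pool.Agent.Run7.h385.PO

theorem t_WSMALL : S_WSMALL := by
  have hll : Tendsto (fun X : ℕ => Real.log (Real.log (X : ℝ))) atTop atTop :=
    Real.tendsto_log_atTop.comp (Real.tendsto_log_atTop.comp tendsto_natCast_atTop_atTop)
  refine ⟨fun a => ?_, ?_⟩
  · obtain ⟨X0, h⟩ := eventually_atTop.1 (hll.eventually_ge_atTop (4 * (a : ℝ)))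
    refine ⟨X0, fun X hX => ?_⟩
    unfold ww
    apply Nat.le_floor
    have := h X hX
    linarith
  · obtain ⟨X0, h⟩ := eventually_atTop.1 (hll.eventually_ge_atTop (4 : ℝ))
    refine ⟨X0, fun X hX => ?_⟩
    have h4 := h X hX
    set M : ℝ := Real.log (Real.log (X : ℝ)) with hM
    have hL : 0 < Real.log (X : ℝ) := by
      by_contra hcon
      have hX1 : Real.log (X : ℝ) = 0 ∨ Real.log (X : ℝ) < 0 := by
        rcases lt_or_eq_of_le (not_lt.1 hcon) with h | h
        · exact Or.inr h
        · exact Or.inl h
      rcases hX1 with h0 | h0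
      · rw [hM, h0, Real.log_zero] at h4
        linarith
      · have : 0 ≤ Real.log (X : ℝ) := Real.log_natCast_nonneg X
        linarith
    have hexp : Real.exp M = Real.log (X : ℝ) := Real.exp_log hL
    have hw1 : 1 ≤ ww X := by
      unfold ww
      apply Nat.le_floor
      rw [← hM]
      push_cast
      linarith
    have hwle : ((ww X : ℕ) : ℝ) ≤ M / 4 := by
      unfold ww
      apply Nat.floor_le
      linarith
    have hWW : WW X = primorial (ww X) := by
      unfold WW primorial
      apply prod_congr _ (fun _ _ => rfl)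
      ext p
      rw [mem_pz, mem_filter, mem_range]
      constructor
      · rintro ⟨h1, h2⟩
        exact ⟨by omega, h2⟩
      · rintro ⟨h1, h2⟩
        exact ⟨by omega, h2⟩
    refine ⟨?_, ?_, ?_⟩
    · have h1 : (WW X : ℝ) ≤ 4 ^ (ww X) := by
        rw [hWW]
        exact_mod_cast primorial_le_four_pow (ww X)
      have h0 : (0 : ℝ) ≤ (WW X : ℝ) := by positivity
      calc (WW X : ℝ) ^ 2 ≤ ((4 : ℝ) ^ (ww X)) ^ 2 := by gcongr
        _ = (16 : ℝ) ^ (ww X) := by
          rw [← pow_mul, mul_comm, pow_mul]
          norm_num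
        _ = Real.exp (Real.log 16 * (ww X)) := by
          rw [mul_comm, Real.exp_nat_mul, Real.exp_log (by norm_num)]
        _ ≤ Real.exp M := by
          apply Real.exp_le_exp.2
          have h16 : Real.log 16 ≤ 4 := by
            have : (16 : ℝ) = 2 ^ 4 := by norm_num
            rw [this, Real.log_pow]
            have := Real.log_two_lt_d9
            push_cast
            linarith
          have hw0 : (0 : ℝ) ≤ (ww X : ℝ) := by positivity
          nlinarith
        _ = Real.log X := hexp
    · rw [hWW]
      exact primorial_pos _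
    · have := Vz_inv_le (ww X) hw1
      calc (Vz (ww X))⁻¹ ≤ (ww X : ℝ) := this
        _ ≤ M / 4 := hwle
        _ ≤ M := by linarith

end Pool.Agent.Run7.h215.PO
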