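import Pool.Agent.Run7.h385.PO.Stm2
import Pool.Agent.Run7.h215.PO.WSMALL

/-! Piece ADM of the project PO: a positive proportion of the systems is admissible. -/

set_option autoImplicit false

namespace Pool.Agent.Run7.h215.PO.Adm

open Finset Filter
open Pool.Agent.H373R2.T7
open Pool.Agent.Run7.h385.PO

/-- the coordinates as a system -/
noncomputable def cc {g d : ℕ} (a : Fin g → Fin d → ℤ) (t : Fin (g * d) → ℤ) : Fin g → Fin d → ℤ :=
  fun l j => a l j + t (finProdFinEquiv (l, j))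

theorem fv_sub {g d : ℕ} (F : Fin g → ℕ → ℤ) (a : Fin g → Fin d → ℤ) (t t' : Fin (g * d) → ℤ)
    (l : Fin g) (n : ℕ) :
    fv F (cc a t) l n - fv F (cc a t') l n =
      ∑ j : Fin d, (t (finProdFinEquiv (l, j)) - t' (finProdFinEquiv (l, j))) * (n : ℤ) ^ (j : ℕ) := by
  unfold fv cc
  rw [add_sub_add_left_eq_sub, ← sum_sub_distrib]
  refine sum_congr rfl fun j _ => ?_
  ring

theorem fv_dvd {g d : ℕ} (F : Fin g → ℕ → ℤ) (a : Fin g → Fin d → ℤ) (p : ℕ)
    (t t' : Fin (g * d) → ℤ) (h : ∀ k, t k ≡ t' k [ZMOD p]) (l : Fin g) (n : ℕ) :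
    (p : ℤ) ∣ fv F (cc a t) l n ↔ (p : ℤ) ∣ fv F (cc a t') l n := by
  have h1 : (p : ℤ) ∣ fv F (cc a t) l n - fv F (cc a t') l n := by
    rw [fv_sub]
    refine dvd_sum fun j _ => ?_
    refine Dvd.dvd.mul_right ?_ _
    exact (Int.ModEq.dvd (h _).symm)
  exact (dvd_iff_dvd_of_dvd_sub h1)

theorem omega_congr {g d : ℕ} (F : Fin g → ℕ → ℤ) (a : Fin g → Fin d → ℤ) (p : ℕ)
    (t t' : Fin (g * d) → ℤ) (h : ∀ k, t k ≡ t' k [ZMOD p]) :
    omega (fv F (cc a t)) p = omega (fv F (cc a t')) p := by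
  unfold omega
  congr 1
  refine filter_congr fun n _ => ?_
  refine exists_congr fun l => fv_dvd F a p t t' h l n

/-- the condition at `p` -/
def A {g d : ℕ} (F : Fin g → ℕ → ℤ) (a : Fin g → Fin d → ℤ) (p : ℕ) (t : Fin (g * d) → ℤ) : Prop :=
  omega (fv F (cc a t)) p < p

theorem A_iff {g d : ℕ} (F : Fin g → ℕ → ℤ) (a : Fin g → Fin d → ℤ) (p : ℕ) (t : Fin (g * d) → ℤ) :
    A F a p t ↔ ∃ n < p, ∀ l, ¬ (p : ℤ) ∣ fv F (cc a t) l n := by
  unfold A omega
  constructor
  · intro h
    by_contra hcon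
    push Not at hcon
    have : (range p).filter (fun n => ∃ l, (p : ℤ) ∣ fv F (cc a t) l n) = range p := by
      refine filter_true_of_mem fun n hn => hcon n (mem_range.1 hn)
    rw [this, card_range] at h
    exact lt_irrefl _ h
  · rintro ⟨n, hn, h⟩
    have : (range p).filter (fun n => ∃ l, (p : ℤ) ∣ fv F (cc a t) l n) ⊂ range p := by
      rw [filter_ssubset]
      exact ⟨n, mem_range.2 hn, by simpa using h⟩
    have := card_lt_card this
    rwa [card_range] at this

theorem sing_pos {g : ℕ} (f : Fin g → ℕ → ℤ) (w : ℕ) (h : ∀ p ∈ pz w, omega f p < p) :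
    0 < sing f w := by
  unfold sing
  refine prod_pos fun p hp => ?_
  have hpp : p.Prime := (mem_filter.1 hp).2
  have h2 : (2 : ℝ) ≤ p := by exact_mod_cast hpp.two_le
  have h1 : (omega f p : ℝ) < p := by exact_mod_cast h p hp
  have h3 : (omega f p : ℝ) / p < 1 := by
    rw [div_lt_one (by linarith)]
    exact h1
  have h4 : 1 / (p : ℝ) < 1 := by
    rw [div_lt_one (by linarith)]
    linarith
  have h5 : 0 < 1 - 1 / (p : ℝ) := by linarith
  have h6 : 0 < 1 - (omega f p : ℝ) / p := by linarith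
  positivity

/-- for each prime there is a good point -/
theorem good_exists {g d : ℕ} (hd : 2 ≤ d) (F : Fin g → ℕ → ℤ) (a : Fin g → Fin d → ℤ) (p : ℕ)
    (hp : p.Prime) : ∃ t ∈ box (fun _ : Fin (g * d) => p), A F a p t := by
  classical
  have hp0 : (0 : ℤ) < p := by exact_mod_cast hp.pos
  set j0 : Fin d := ⟨0, by omega⟩ with hj0
  set t0 : Fin (g * d) → ℤ := fun k =>
    if (finProdFinEquiv.symm k).2 = j0 then
      1 - F (finProdFinEquiv.symm k).1 0 - a (finProdFinEquiv.symm k).1 j0 else 0 with ht0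
  refine ⟨fun k => t0 k % p, ?_, ?_⟩
  · unfold Pool.Agent.Run7.h385.PO.box
    rw [Fintype.mem_piFinset]
    intro k
    rw [mem_Ico]
    exact ⟨Int.emod_nonneg _ hp0.ne', Int.emod_lt_of_pos _ hp0⟩
  · rw [A_iff]
    refine ⟨0, hp.pos, fun l => ?_⟩
    rw [fv_dvd F a p _ t0 (fun k => Int.mod_modEq _ _)]
    have h1 : fv F (cc a t0) l 0 = 1 := by
      unfold fv cc
      have h2 : ∑ j : Fin d, (a l j + t0 (finProdFinEquiv (l, j))) * ((0 : ℕ) : ℤ) ^ (j : ℕ) =
          a l j0 + t0 (finProdFinEquiv (l, j0)) := by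
        rw [sum_eq_single j0]
        · simp [hj0]
        · intro j _ hj
          have : (j : ℕ) ≠ 0 := fun h => hj (Fin.ext (by simp [hj0, h]))
          simp [this]
        · intro h; exact absurd (mem_univ _) h
      rw [h2, ht0]
      simp only [Equiv.symm_apply_apply, if_true]
      ring
    rw [h1]
    intro h
    have := Int.le_of_dvd one_pos h
    have h2 := hp.two_le
    omega

/-- the bad points at `p` are few -/
theorem bad_few {g d : ℕ} (hd : 2 ≤ d) (F : Fin g → ℕ → ℤ) (a : Fin g → Fin d → ℤ) (p : ℕ)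
    (hp : p.Prime) [DecidablePred (fun t => ¬ A F a p t)] :
    ((box (fun _ : Fin (g * d) => p)).filter (fun t => ¬ A F a p t)).card * p ^ 2 ≤
      g ^ 2 * p ^ (g * d) := by
  classical
  have hp0 : (0 : ℤ) < p := by exact_mod_cast hp.pos
  set j0 : Fin d := ⟨0, by omega⟩ with hj0
  set j1 : Fin d := ⟨1, by omega⟩ with hj1
  have hj01 : j0 ≠ j1 := by
    intro h
    have := congrArg Fin.val h
    simp [hj0, hj1] at this
  set B := box (fun _ : Fin (g * d) => p) with hB
  have hBm : ∀ t, t ∈ B ↔ ∀ k, 0 ≤ t k ∧ t k < p := by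
    intro t
    rw [hB]
    unfold Pool.Agent.Run7.h385.PO.box
    simp only [Fintype.mem_piFinset, mem_Ico]
  have hBc : B.card = p ^ (g * d) := by
    rw [hB]
    unfold Pool.Agent.Run7.h385.PO.box
    rw [Fintype.card_piFinset]
    simp
  have hsub : B.filter (fun t => ¬ A F a p t) ⊆
      (univ : Finset (Fin g × Fin g)).biUnion (fun q => B.filter
        (fun t => (p : ℤ) ∣ fv F (cc a t) q.1 0 ∧ (p : ℤ) ∣ fv F (cc a t) q.2 1)) := by
    intro t ht
    rw [mem_filter, A_iff] at ht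
    obtain ⟨h1, h2⟩ := ht
    push Not at h2
    obtain ⟨l, hl⟩ := h2 0 hp.pos
    obtain ⟨l', hl'⟩ := h2 1 hp.one_lt
    rw [mem_biUnion]
    exact ⟨(l, l'), mem_univ _, mem_filter.2 ⟨h1, hl, hl'⟩⟩
  have hone : ∀ q : Fin g × Fin g, (B.filter
        (fun t => (p : ℤ) ∣ fv F (cc a t) q.1 0 ∧ (p : ℤ) ∣ fv F (cc a t) q.2 1)).card * p ^ 2 ≤
      p ^ (g * d) := by
    rintro ⟨l, l'⟩
    set j2 : Fin d := if l = l' then j1 else j0 with hj2
    set k1 : Fin (g * d) := finProdFinEquiv (l, j0) with hk1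
    set k2 : Fin (g * d) := finProdFinEquiv (l', j2) with hk2
    have hk12 : k1 ≠ k2 := by
      intro h
      rw [hk1, hk2] at h
      have h' := finProdFinEquiv.injective h
      simp only [Prod.mk.injEq] at h'
      rw [hj2, if_pos h'.1] at h'
      exact hj01 h'.2
    have hI : (Ico (0 : ℤ) p).card = p := by simp
    have e1 : (B.filter
        (fun t => (p : ℤ) ∣ fv F (cc a t) l 0 ∧ (p : ℤ) ∣ fv F (cc a t) l' 1)).card * p ^ 2 =
        ((B.filter (fun t => (p : ℤ) ∣ fv F (cc a t) l 0 ∧ (p : ℤ) ∣ fv F (cc a t) l' 1)) ×ˢ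
          (Ico (0 : ℤ) p ×ˢ Ico (0 : ℤ) p)).card := by
      rw [card_product, card_product, hI]
      ring
    change (B.filter
        (fun t => (p : ℤ) ∣ fv F (cc a t) l 0 ∧ (p : ℤ) ∣ fv F (cc a t) l' 1)).card * p ^ 2 ≤ _
    rw [e1, ← hBc]
    refine card_le_card_of_injOn
      (fun q => Function.update (Function.update q.1 k1 q.2.1) k2 q.2.2) ?_ ?_
    · rintro ⟨t, x, y⟩ hq
      simp only [coe_product, Set.mem_prod, mem_coe, mem_filter, mem_Ico] at hq
      obtain ⟨⟨h1, _⟩, h2, h3⟩ := hq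
      rw [mem_coe, hBm]
      rw [hBm] at h1
      intro k
      by_cases hk : k = k2
      · subst hk
        simp only [Function.update_self]
        exact h3
      · simp only [Function.update_of_ne hk]
        by_cases hk' : k = k1
        · subst hk'
          simp only [Function.update_self]
          exact h2
        · simp only [Function.update_of_ne hk']
          exact h1 k
    · rintro ⟨t, x, y⟩ hq ⟨t', x', y'⟩ hq' h
      simp only [coe_product, Set.mem_prod, mem_coe, mem_filter, mem_Ico] at hq hq'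
      obtain ⟨⟨hb, hd0, hd1⟩, -, -⟩ := hq
      obtain ⟨⟨hb', hd0', hd1'⟩, -, -⟩ := hq'
      rw [hBm] at hb hb'
      simp only at h
      have hy : y = y' := by
        have := congrFun h k2
        simpa using this
      have hx : x = x' := by
        have := congrFun h k1
        simpa [Function.update_of_ne hk12] using this
      have hoff : ∀ k, k ≠ k1 → k ≠ k2 → t k = t' k := by
        intro k h1 h2
        have := congrFun h k
        simpa [Function.update_of_ne h1, Function.update_of_ne h2] using this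
      have hbox : ∀ k, (p : ℤ) ∣ t k - t' k → t k = t' k := by
        intro k hk
        have h1 := hb k
        have h2 := hb' k
        have := Int.eq_zero_of_abs_lt_dvd hk (by rw [abs_lt]; constructor <;> linarith [h1.1, h1.2, h2.1, h2.2])
        linarith
      have hk1e : t k1 = t' k1 := by
        apply hbox
        have h1 := dvd_sub hd0 hd0'
        rw [fv_sub] at h1
        have h2 : ∑ j : Fin d, (t (finProdFinEquiv (l, j)) - t' (finProdFinEquiv (l, j))) * ((0 : ℕ) : ℤ) ^ (j : ℕ) =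
            t k1 - t' k1 := by
          rw [sum_eq_single j0]
          · simp [hj0, hk1]
          · intro j _ hj
            have : (j : ℕ) ≠ 0 := fun h => hj (Fin.ext (by simp [hj0, h]))
            simp [this]
          · intro h; exact absurd (mem_univ _) h
        rwa [h2] at h1
      have hk2e : t k2 = t' k2 := by
        apply hbox
        have h1 := dvd_sub hd1 hd1'
        rw [fv_sub] at h1
        have h2 : ∑ j : Fin d, (t (finProdFinEquiv (l', j)) - t' (finProdFinEquiv (l', j))) * ((1 : ℕ) : ℤ) ^ (j : ℕ) =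
            t k2 - t' k2 := by
          rw [sum_eq_single j2]
          · simp [hk2]
          · intro j _ hj
            have hne2 : finProdFinEquiv (l', j) ≠ k2 := by
              intro h
              have h' := finProdFinEquiv.injective h
              simp only [Prod.mk.injEq] at h'
              exact hj h'.2
            by_cases hk : finProdFinEquiv (l', j) = k1
            · rw [hk, hk1e]; simp
            · rw [hoff _ hk hne2]; simp
          · intro h; exact absurd (mem_univ _) h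
        rwa [h2] at h1
      have htt : t = t' := by
        funext k
        by_cases h1 : k = k1
        · rw [h1]; exact hk1e
        · by_cases h2 : k = k2
          · rw [h2]; exact hk2e
          · exact hoff k h1 h2
      rw [htt, hx, hy]
  calc (B.filter (fun t => ¬ A F a p t)).card * p ^ 2
      ≤ (∑ q : Fin g × Fin g, (B.filter
        (fun t => (p : ℤ) ∣ fv F (cc a t) q.1 0 ∧ (p : ℤ) ∣ fv F (cc a t) q.2 1)).card) * p ^ 2 := by
        gcongr
        exact (card_le_card hsub).trans card_biUnion_le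
    _ = ∑ q : Fin g × Fin g, (B.filter
        (fun t => (p : ℤ) ∣ fv F (cc a t) q.1 0 ∧ (p : ℤ) ∣ fv F (cc a t) q.2 1)).card * p ^ 2 := by
        rw [sum_mul]
    _ ≤ ∑ _q : Fin g × Fin g, p ^ (g * d) := sum_le_sum fun q _ => hone q
    _ = g ^ 2 * p ^ (g * d) := by
        rw [sum_const, card_univ, Fintype.card_prod, Fintype.card_fin, smul_eq_mul]
        ring

/-- the density at `p` -/
noncomputable def dens {g d : ℕ} (F : Fin g → ℕ → ℤ) (a : Fin g → Fin d → ℤ) (p : ℕ) : ℝ := by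
  classical
  exact (((box (fun _ : Fin (g * d) => p)).filter (fun t => A F a p t)).card : ℝ) / (p : ℝ) ^ (g * d)

theorem dens_bounds {g d : ℕ} (hd : 2 ≤ d) (F : Fin g → ℕ → ℤ) (a : Fin g → Fin d → ℤ) (p : ℕ)
    (hp : p.Prime) : ((p : ℝ) ^ (g * d))⁻¹ ≤ dens F a p ∧
      1 - (g : ℝ) ^ 2 / (p : ℝ) ^ 2 ≤ dens F a p := by
  classical
  have hp0 : (0 : ℝ) < p := by exact_mod_cast hp.pos
  have hpd : (0 : ℝ) < (p : ℝ) ^ (g * d) := by positivity
  unfold dens
  constructor
  · rw [← one_div]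
    apply div_le_div_of_nonneg_right _ hpd.le
    obtain ⟨t, ht, hA⟩ := good_exists hd F a p hp
    have : 0 < ((box (fun _ : Fin (g * d) => p)).filter (fun t => A F a p t)).card :=
      card_pos.2 ⟨t, mem_filter.2 ⟨ht, hA⟩⟩
    exact_mod_cast this
  · have h1 := bad_few hd F a p hp
    have hBc : (box (fun _ : Fin (g * d) => p)).card = p ^ (g * d) := by
      unfold Pool.Agent.Run7.h385.PO.box
      rw [Fintype.card_piFinset]
      simp
    have h2 := card_filter_add_card_filter_not (s := box (fun _ : Fin (g * d) => p))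
      (fun t => A F a p t)
    rw [hBc] at h2
    have h3 : (((box (fun _ : Fin (g * d) => p)).filter (fun t => A F a p t)).card : ℝ) +
        (((box (fun _ : Fin (g * d) => p)).filter (fun t => ¬ A F a p t)).card : ℝ) =
        (p : ℝ) ^ (g * d) := by exact_mod_cast h2
    have h4 : (((box (fun _ : Fin (g * d) => p)).filter (fun t => ¬ A F a p t)).card : ℝ) * (p : ℝ) ^ 2 ≤
        (g : ℝ) ^ 2 * (p : ℝ) ^ (g * d) := by exact_mod_cast h1
    rw [le_div_iff₀ hpd, sub_mul, one_mul, div_mul_eq_mul_div]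
    have h5 : (((box (fun _ : Fin (g * d) => p)).filter (fun t => ¬ A F a p t)).card : ℝ) ≤
        (g : ℝ) ^ 2 * (p : ℝ) ^ (g * d) / (p : ℝ) ^ 2 := by
      rw [le_div_iff₀ (by positivity)]
      exact h4
    linarith

theorem prod_one_sub {ι : Type} (s : Finset ι) (x y : ι → ℝ) (hx : ∀ i ∈ s, 0 ≤ x i)
    (hx1 : ∀ i ∈ s, x i ≤ 1) (hy : ∀ i ∈ s, 1 - x i ≤ y i) : 1 - ∑ i ∈ s, x i ≤ ∏ i ∈ s, y i := by
  classical
  induction s using Finset.induction_on with
  | empty => simp
  | insert i s hi ih =>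
    rw [sum_insert hi, prod_insert hi]
    have ih' := ih (fun j hj => hx j (mem_insert_of_mem hj)) (fun j hj => hx1 j (mem_insert_of_mem hj))
      (fun j hj => hy j (mem_insert_of_mem hj))
    have h1 := hx i (mem_insert_self _ _)
    have h2 := hx1 i (mem_insert_self _ _)
    have h3 := hy i (mem_insert_self _ _)
    have hP : 0 ≤ ∏ j ∈ s, y j := prod_nonneg fun j hj => by
      have := hy j (mem_insert_of_mem hj)
      have := hx1 j (mem_insert_of_mem hj)
      linarith
    have hS : 0 ≤ ∑ j ∈ s, x j := sum_nonneg fun j hj => hx j (mem_insert_of_mem hj)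
    calc 1 - (x i + ∑ j ∈ s, x j) ≤ (1 - x i) * (1 - ∑ j ∈ s, x j) := by nlinarith
      _ ≤ (1 - x i) * ∏ j ∈ s, y j := by
        apply mul_le_mul_of_nonneg_left ih'
        linarith
      _ ≤ y i * ∏ j ∈ s, y j := mul_le_mul_of_nonneg_right h3 hP

/-- the product of the densities is bounded below -/
theorem dens_prod (g d : ℕ) (hd : 2 ≤ d) : ∃ c1 : ℝ, 0 < c1 ∧ ∀ (F : Fin g → ℕ → ℤ)
    (a : Fin g → Fin d → ℤ) (w : ℕ), c1 ≤ ∏ p ∈ pz w, dens F a p := by
  classical
  set P0 : ℕ := 2 * g ^ 2 + 1 with hP0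
  refine ⟨(∏ p ∈ pz P0, ((p : ℝ) ^ (g * d))⁻¹) / 2, ?_, ?_⟩
  · apply half_pos
    refine prod_pos fun p hp => ?_
    have hpp : p.Prime := (mem_filter.1 hp).2
    have hp0 : (0 : ℝ) < p := by exact_mod_cast hpp.pos
    positivity
  · intro F a w
    have hpr : ∀ {z p : ℕ}, p ∈ pz z → p.Prime := fun hp => (mem_filter.1 hp).2
    rw [← prod_filter_mul_prod_filter_not (pz w) (fun p => p ≤ P0)]
    have h1 : ∏ p ∈ pz P0, ((p : ℝ) ^ (g * d))⁻¹ ≤ ∏ p ∈ (pz w).filter (fun p => p ≤ P0), dens F a p := by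
      have hsub : (pz w).filter (fun p => p ≤ P0) ⊆ pz P0 := by
        intro p hp
        rw [mem_filter] at hp
        unfold pz at hp ⊢
        rw [mem_filter, mem_Icc] at hp ⊢
        exact ⟨⟨hp.1.1.1, hp.2⟩, hp.1.2⟩
      calc ∏ p ∈ pz P0, ((p : ℝ) ^ (g * d))⁻¹
          = (∏ p ∈ pz P0 \ (pz w).filter (fun p => p ≤ P0), ((p : ℝ) ^ (g * d))⁻¹) *
            ∏ p ∈ (pz w).filter (fun p => p ≤ P0), ((p : ℝ) ^ (g * d))⁻¹ := (prod_sdiff hsub).symm
        _ ≤ 1 * ∏ p ∈ (pz w).filter (fun p => p ≤ P0), ((p : ℝ) ^ (g * d))⁻¹ := by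
          apply mul_le_mul_of_nonneg_right
          · apply prod_le_one
            · intro p hp
              positivity
            · intro p hp
              have hpp := hpr (mem_sdiff.1 hp).1
              have : (1 : ℝ) ≤ (p : ℝ) ^ (g * d) := one_le_pow₀ (by exact_mod_cast hpp.one_lt.le)
              exact inv_le_one_of_one_le₀ this
          · exact prod_nonneg fun p _ => by positivity
        _ ≤ ∏ p ∈ (pz w).filter (fun p => p ≤ P0), dens F a p := by
          rw [one_mul]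
          apply Finset.prod_le_prod
          · intro p _
            positivity
          · intro p hp
            exact (dens_bounds hd F a p (hpr (mem_filter.1 hp).1)).1
    have h2 : (1 : ℝ) / 2 ≤ ∏ p ∈ (pz w).filter (fun p => ¬ p ≤ P0), dens F a p := by
      have h3 := prod_one_sub ((pz w).filter (fun p => ¬ p ≤ P0)) (fun p : ℕ => (g : ℝ) ^ 2 / (p : ℝ) ^ 2)
        (fun p => dens F a p) (fun p _ => by positivity) ?_ ?_
      · refine le_trans ?_ h3
        have h4 : ∑ p ∈ (pz w).filter (fun p => ¬ p ≤ P0), (g : ℝ) ^ 2 / (p : ℝ) ^ 2 ≤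
            (g : ℝ) ^ 2 * ∑ i ∈ Ioc P0 (max P0 w), ((i : ℝ) ^ 2)⁻¹ := by
          rw [mul_sum]
          have hsub : (pz w).filter (fun p => ¬ p ≤ P0) ⊆ Ioc P0 (max P0 w) := by
            intro p hp
            rw [mem_filter] at hp
            unfold pz at hp
            rw [mem_filter, mem_Icc] at hp
            rw [mem_Ioc]
            exact ⟨not_le.1 hp.2, hp.1.1.2.trans (le_max_right _ _)⟩
          refine (sum_le_sum_of_subset_of_nonneg hsub fun i _ _ => by positivity).trans (le_of_eq ?_)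
          refine sum_congr rfl fun i _ => ?_
          rw [div_eq_mul_inv]
        have h5 := sum_Ioc_inv_sq_le_sub (α := ℝ) (k := P0) (n := max P0 w) (by omega) (le_max_left _ _)
        have h6 : (0 : ℝ) ≤ ((max P0 w : ℕ) : ℝ)⁻¹ := by positivity
        have h7 : ∑ i ∈ Ioc P0 (max P0 w), ((i : ℝ) ^ 2)⁻¹ ≤ (P0 : ℝ)⁻¹ := by linarith
        have h8 : (g : ℝ) ^ 2 * (P0 : ℝ)⁻¹ ≤ 1 / 2 := by
          rw [hP0, ← div_eq_mul_inv, div_le_iff₀ (by positivity)]
          push_cast
          linarith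
        have h9 : (g : ℝ) ^ 2 * ∑ i ∈ Ioc P0 (max P0 w), ((i : ℝ) ^ 2)⁻¹ ≤ (g : ℝ) ^ 2 * (P0 : ℝ)⁻¹ := by
          gcongr
        linarith
      · intro p hp
        rw [mem_filter] at hp
        have hpp := hpr hp.1
        have hp0 : (0 : ℝ) < p := by exact_mod_cast hpp.pos
        rw [div_le_one (by positivity)]
        have h4 : P0 < p := not_le.1 hp.2
        have h5 : g ^ 2 ≤ p ^ 2 := by nlinarith
        exact_mod_cast h5
      · intro p hp
        exact (dens_bounds hd F a p (hpr (mem_filter.1 hp).1)).2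
    have h0 : (0 : ℝ) ≤ ∏ p ∈ pz P0, ((p : ℝ) ^ (g * d))⁻¹ := prod_nonneg fun p _ => by positivity
    calc (∏ p ∈ pz P0, ((p : ℝ) ^ (g * d))⁻¹) / 2
        = (∏ p ∈ pz P0, ((p : ℝ) ^ (g * d))⁻¹) * (1 / 2) := by ring
      _ ≤ (∏ p ∈ (pz w).filter (fun p => p ≤ P0), dens F a p) *
          ∏ p ∈ (pz w).filter (fun p => ¬ p ≤ P0), dens F a p := by
        apply mul_le_mul h1 h2 (by norm_num)
        exact h0.trans h1

theorem t_ADM (hC : S_COUNT) : S_ADM := by
  classical
  intro d g C hd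
  obtain ⟨c1, hc1, hdens⟩ := dens_prod g d hd
  refine ⟨c1 / 2, half_pos hc1, ?_⟩
  obtain ⟨-, X1, hX1⟩ := t_WSMALL
  -- the error term
  have herr : ∃ X2 : ℕ, ∀ X : ℕ, X2 ≤ X → 1 ≤ Real.log (X : ℝ) ∧
      2 ^ (g * d) * Real.log (X : ℝ) * (2 / c1) ≤ X / Real.log (X : ℝ) ^ C - 1 := by
    have h1 : Tendsto (fun X : ℕ => Real.log (X : ℝ)) atTop atTop :=
      Real.tendsto_log_atTop.comp tendsto_natCast_atTop_atTop
    have h2 : Tendsto (fun X : ℕ => Real.log (X : ℝ) ^ (C + 1) / (1 * (X : ℝ) + 0)) atTop (nhds 0) :=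
      (Real.tendsto_pow_log_div_mul_add_atTop 1 0 (C + 1) one_ne_zero).comp tendsto_natCast_atTop_atTop
    set K : ℝ := 2 ^ (g * d) * (2 / c1) + 1 with hK
    have hK0 : 0 < K := by positivity
    have h3 := h2.eventually_lt_const (show (0 : ℝ) < 1 / K by positivity)
    obtain ⟨X2, hX2⟩ := eventually_atTop.1 ((h1.eventually_ge_atTop 1).and (h3.and (eventually_ge_atTop 1)))
    refine ⟨X2, fun X hX => ?_⟩
    obtain ⟨h4, h5, h6⟩ := hX2 X hX
    refine ⟨h4, ?_⟩
    have hX0 : (0 : ℝ) < X := by exact_mod_cast h6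
    have hL : 0 < Real.log (X : ℝ) := by linarith
    rw [one_mul, add_zero, div_lt_div_iff₀ hX0 hK0, one_mul] at h5
    have h7 : Real.log (X : ℝ) * K ≤ X / Real.log (X : ℝ) ^ C := by
      rw [le_div_iff₀ (by positivity)]
      calc Real.log (X : ℝ) * K * Real.log (X : ℝ) ^ C = Real.log (X : ℝ) ^ (C + 1) * K := by ring
        _ ≤ X := h5.le
    rw [hK] at h7
    nlinarith
  obtain ⟨X2, hX2⟩ := herr
  refine ⟨max X1 X2, fun X hX F hF a Y hY => ?_⟩
  obtain ⟨hW2, hW1, -⟩ := hX1 X ((le_max_left _ _).trans hX)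
  obtain ⟨hL1, hE⟩ := hX2 X ((le_max_right _ _).trans hX)
  set w := ww X with hw
  set Ym : ℕ := ⌊(X : ℝ) / Real.log (X : ℝ) ^ C⌋₊ with hYm
  set Y' : Fin (g * d) → ℕ := fun k => Y (finProdFinEquiv.symm k).1 (finProdFinEquiv.symm k).2 with hY'
  have hWr : (WW X : ℝ) ≤ Real.log (X : ℝ) := by
    have h1 : (1 : ℝ) ≤ (WW X : ℝ) := by exact_mod_cast hW1
    nlinarith
  have hnn : (0 : ℝ) ≤ (X : ℝ) / Real.log (X : ℝ) ^ C := by positivity
  have hYm1 : (X : ℝ) / Real.log (X : ℝ) ^ C - 1 ≤ Ym := by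
    have := Nat.lt_floor_add_one ((X : ℝ) / Real.log (X : ℝ) ^ C)
    rw [← hYm] at this
    linarith
  have hc1le : c1 ≤ 1 := by
    have h1 := hdens F a 0
    have h2 : pz 0 = ∅ := by
      unfold pz
      rw [Icc_eq_empty (by norm_num), filter_empty]
    rw [h2, prod_empty] at h1
    exact h1
  have hbig : (WW X : ℝ) ≤ Ym := by
    have h1 : (1 : ℝ) ≤ 2 ^ (g * d) := one_le_pow₀ (by norm_num)
    have h2 : (1 : ℝ) ≤ 2 / c1 := by
      rw [le_div_iff₀ hc1]
      linarith
    have h3 : Real.log (X : ℝ) ≤ 2 ^ (g * d) * Real.log (X : ℝ) * (2 / c1) := by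
      have h4 : Real.log (X : ℝ) ≤ 2 ^ (g * d) * Real.log (X : ℝ) := by nlinarith
      have h5 : 2 ^ (g * d) * Real.log (X : ℝ) ≤ 2 ^ (g * d) * Real.log (X : ℝ) * (2 / c1) := by
        have : 0 ≤ 2 ^ (g * d) * Real.log (X : ℝ) := by positivity
        nlinarith
      linarith
    linarith
  have hWWe : ∏ p ∈ pz w, p = WW X := rfl
  have hcount := hC (g * d) (fun p t => A F a p t) (pz w) (fun p hp => (mem_filter.1 hp).2)
    (fun p _ t t' h hA => by
      unfold A at hA ⊢
      rwa [← omega_congr F a p t t' h]) Y' Ym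
    (fun k => by
      rw [hYm]
      exact Nat.floor_le_of_le (hY _ _)) (by
      rw [hWWe]
      exact_mod_cast hbig)
  rw [hWWe] at hcount
  have hprodY : (∏ k, (Y' k : ℝ)) = ∏ l, ∏ j, (Y l j : ℝ) := by
    rw [← Fintype.prod_prod_type' (fun l j => (Y l j : ℝ))]
    rw [← Equiv.prod_comp finProdFinEquiv]
    refine prod_congr rfl fun q _ => ?_
    rw [hY']
    simp only [Equiv.symm_apply_apply]
  rw [hprodY] at hcount
  set PY : ℝ := ∏ l, ∏ j, (Y l j : ℝ) with hPY
  have hPY0 : 0 ≤ PY := prod_nonneg fun l _ => prod_nonneg fun j _ => Nat.cast_nonneg _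
  have hdensw : c1 ≤ ∏ p ∈ pz w,
      ((((box (fun _ : Fin (g * d) => p)).filter (fun t => A F a p t)).card : ℝ) / (p : ℝ) ^ (g * d)) := by
    have h1 := hdens F a w
    unfold dens at h1
    convert h1
  have herr2 : 2 ^ (g * d) * (WW X : ℝ) / Ym ≤ c1 / 2 := by
    have hYm0 : (0 : ℝ) < Ym := lt_of_lt_of_le (by
      have h1 : (1 : ℝ) ≤ (WW X : ℝ) := by exact_mod_cast hW1
      linarith) hbig
    rw [div_le_iff₀ hYm0]
    have h1 : 2 ^ (g * d) * (WW X : ℝ) ≤ 2 ^ (g * d) * Real.log (X : ℝ) := by gcongr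
    have h2 : 2 ^ (g * d) * Real.log (X : ℝ) * (2 / c1) ≤ Ym := hE.trans hYm1
    have h3 : 2 ^ (g * d) * Real.log (X : ℝ) = c1 / 2 * (2 ^ (g * d) * Real.log (X : ℝ) * (2 / c1)) := by
      field_simp
    rw [h3] at h1
    refine h1.trans ?_
    gcongr
  have hlow : c1 / 2 * PY ≤ (((box Y').filter (fun t => ∀ p ∈ pz w, A F a p t)).card : ℝ) := by
    have h1 := (abs_le.1 hcount).1
    have h2 : c1 * PY ≤ PY * ∏ p ∈ pz w,
      ((((box (fun _ : Fin (g * d) => p)).filter (fun t => A F a p t)).card : ℝ) / (p : ℝ) ^ (g * d)) := by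
      rw [mul_comm]
      gcongr
    have h3 : 2 ^ (g * d) * (WW X : ℝ) / Ym * PY ≤ c1 / 2 * PY := by gcongr
    linarith
  refine hlow.trans ?_
  norm_cast
  refine card_le_card_of_injOn (fun t => cc a t) ?_ ?_
  · intro t ht
    rw [mem_coe, mem_filter] at ht
    rw [mem_coe, mem_filter]
    refine ⟨?_, sing_pos _ _ fun p hp => ht.2 p hp⟩
    have h1 := ht.1
    unfold Pool.Agent.Run7.h385.PO.box at h1
    rw [Fintype.mem_piFinset] at h1
    unfold cbox
    rw [Fintype.mem_piFinset]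
    intro l
    rw [Fintype.mem_piFinset]
    intro j
    have h2 := h1 (finProdFinEquiv (l, j))
    rw [hY'] at h2
    simp only [Equiv.symm_apply_apply, mem_Ico] at h2
    rw [mem_Ico]
    unfold cc
    constructor <;> linarith [h2.1, h2.2]
  · intro t _ t' _ h
    funext k
    have h1 := congrFun (congrFun h (finProdFinEquiv.symm k).1) (finProdFinEquiv.symm k).2
    unfold cc at h1
    simp only [Prod.mk.eta, Equiv.apply_symm_apply] at h1
    linarith

end Pool.Agent.Run7.h215.PO.Adm
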