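import Pool.Agent.Run7.h385.PO.Stm

/-! Piece MOM of the project PO: factorial moments as sums over injective tuples. -/

set_option autoImplicit false

namespace Pool.Agent.Run7.h215.PO

open Finset
open Pool.Agent.H373R2.T7
open Pool.Agent.Run7.h385.PO

/-- the injective maps from `Fin k` to `T` -/
noncomputable def inj (k : ℕ) (T : Finset ℕ) : Finset (Fin k → ℕ) := by
  classical
  exact (Fintype.piFinset (fun _ : Fin k => T)).filter (fun n => Function.Injective n)

theorem mem_inj {k : ℕ} {T : Finset ℕ} {n : Fin k → ℕ} :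
    n ∈ inj k T ↔ (∀ i, n i ∈ T) ∧ Function.Injective n := by
  classical
  unfold inj
  rw [mem_filter, Fintype.mem_piFinset]

theorem card_inj (k : ℕ) (T : Finset ℕ) : (inj k T).card = T.card.descFactorial k := by
  classical
  have h1 : Fintype.card (Fin k ↪ T) = T.card.descFactorial k := by
    rw [Fintype.card_embedding_eq, Fintype.card_coe, Fintype.card_fin]
  rw [← h1, ← card_univ]
  symm
  refine card_bij (fun (e : Fin k ↪ T) _ => fun i => (e i : ℕ)) ?_ ?_ ?_
  · intro e _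
    rw [mem_inj]
    exact ⟨fun i => (e i).2, fun i j h => e.injective (Subtype.ext h)⟩
  · intro e _ e' _ h
    ext i
    exact congrFun h i
  · intro n hn
    rw [mem_inj] at hn
    refine ⟨⟨fun i => ⟨n i, hn.1 i⟩, fun i j h => hn.2 (by simpa using h)⟩, mem_univ _, ?_⟩
    rfl

theorem descFactorial_filter (k : ℕ) (T : Finset ℕ) (Q : ℕ → Prop) [DecidablePred Q] :
    ((T.filter Q).card.descFactorial k : ℕ) =
      ∑ n ∈ inj k T, (if ∀ i, Q (n i) then 1 else 0) := by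
  classical
  rw [← card_inj, ← card_filter]
  congr 1
  ext n
  rw [mem_filter, mem_inj, mem_inj]
  constructor
  · rintro ⟨h1, h2⟩
    exact ⟨⟨fun i => (mem_filter.1 (h1 i)).1, h2⟩, fun i => (mem_filter.1 (h1 i)).2⟩
  · rintro ⟨⟨h1, h2⟩, h3⟩
    exact ⟨fun i => mem_filter.2 ⟨h1 i, h3 i⟩, h2⟩

theorem prod_close {g : ℕ} (c M : Fin g → ℝ) (δ : ℝ) (hδ : 0 ≤ δ) (hc : ∀ l, 0 ≤ c l)
    (hM : ∀ l, 0 ≤ M l) (h : ∀ l, |c l - M l| ≤ δ * M l) (s : Finset (Fin g)) :
    |∏ l ∈ s, c l - ∏ l ∈ s, M l| ≤ ((1 + δ) ^ s.card - 1) * ∏ l ∈ s, M l := by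
  classical
  induction s using Finset.induction_on with
  | empty => simp
  | insert l s hl ih =>
    rw [prod_insert hl, prod_insert hl, card_insert_of_notMem hl]
    have h1 := h l
    have hP : 0 ≤ ∏ l ∈ s, M l := prod_nonneg fun l _ => hM l
    have hC : c l ≤ (1 + δ) * M l := by
      have := (abs_le.1 h1).2
      linarith
    have e : c l * ∏ l ∈ s, c l - M l * ∏ l ∈ s, M l =
        c l * (∏ l ∈ s, c l - ∏ l ∈ s, M l) + (c l - M l) * ∏ l ∈ s, M l := by ring
    rw [e]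
    have hpow : 0 ≤ (1 + δ) ^ s.card - 1 := by
      have : 1 ≤ (1 + δ) ^ s.card := one_le_pow₀ (by linarith)
      linarith
    calc |c l * (∏ l ∈ s, c l - ∏ l ∈ s, M l) + (c l - M l) * ∏ l ∈ s, M l|
        ≤ |c l * (∏ l ∈ s, c l - ∏ l ∈ s, M l)| + |(c l - M l) * ∏ l ∈ s, M l| := abs_add_le _ _
      _ = c l * |∏ l ∈ s, c l - ∏ l ∈ s, M l| + |c l - M l| * ∏ l ∈ s, M l := by
        rw [abs_mul, abs_mul, abs_of_nonneg (hc l), abs_of_nonneg hP]
      _ ≤ ((1 + δ) * M l) * (((1 + δ) ^ s.card - 1) * ∏ l ∈ s, M l) +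
          (δ * M l) * ∏ l ∈ s, M l := by
        have := hc l
        have := hM l
        gcongr
      _ = ((1 + δ) ^ (s.card + 1) - 1) * (M l * ∏ l ∈ s, M l) := by ring

theorem exists_delta (g : ℕ) (ε : ℝ) (hε : 0 < ε) : ∃ δ : ℝ, 0 < δ ∧ (1 + δ) ^ g - 1 ≤ ε := by
  have hcont : Filter.Tendsto (fun δ : ℝ => (1 + δ) ^ g - 1) (nhds 0) (nhds 0) := by
    have : Continuous (fun δ : ℝ => (1 + δ) ^ g - 1) := by fun_prop
    have h := this.tendsto 0
    simpa using h
  have h1 : ∀ᶠ δ in nhds (0 : ℝ), (1 + δ) ^ g - 1 < ε := hcont.eventually_lt_const hε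
  obtain ⟨r, hr, hr'⟩ := Metric.eventually_nhds_iff.1 h1
  refine ⟨r / 2, by positivity, (hr' ?_).le⟩
  rw [Real.dist_eq, sub_zero, abs_of_pos (by positivity)]
  linarith

theorem t_MOM (hP : S_PRIMES) : S_MOM := by
  classical
  intro d g k C hd hk ε hε
  obtain ⟨δ, hδ, hδε⟩ := exists_delta g ε hε
  obtain ⟨X0, hX0⟩ := hP d k C hd hk δ hδ
  refine ⟨max X0 1, fun X hX T hT u hu Y hY => ?_⟩
  have hX' := hX0 X ((le_max_left _ _).trans hX)
  have hX1 : 1 ≤ X := (le_max_right _ _).trans hX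
  have hrho : 0 ≤ rho X := by
    unfold rho
    have h1 : 0 < (Vz (ww X))⁻¹ := inv_pos.2 (Vz_pos _)
    have h2 : 0 ≤ Real.log (X : ℝ) := Real.log_natCast_nonneg X
    positivity
  -- the sum as a sum over injective tuples
  have hswap : (∑ t ∈ Fintype.piFinset (fun l => box (Y l)),
        (((T.filter (fun n => ∀ l, (u l n + ev (WW X) (t l) n).natAbs.Prime)).card.descFactorial k : ℕ) : ℝ)) =
      ∑ n ∈ inj k T, ∏ l, (((box (Y l)).filter
        (fun t => ∀ i, (u l (n i) + ev (WW X) t (n i)).natAbs.Prime)).card : ℝ) := by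
    have h1 : ∀ t : Fin g → Fin d → ℤ,
        (((T.filter (fun n => ∀ l, (u l n + ev (WW X) (t l) n).natAbs.Prime)).card.descFactorial k : ℕ) : ℝ) =
        ∑ n ∈ inj k T, (if ∀ i, ∀ l, (u l (n i) + ev (WW X) (t l) (n i)).natAbs.Prime then (1 : ℝ) else 0) := by
      intro t
      rw [descFactorial_filter]
      push_cast
      rfl
    rw [sum_congr rfl fun t _ => h1 t, sum_comm]
    refine sum_congr rfl fun n _ => ?_
    rw [← Nat.cast_prod, ← Fintype.card_piFinset, ← sum_filter, sum_const, nsmul_eq_mul, mul_one]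
    congr 2
    ext t
    rw [mem_filter, Fintype.mem_piFinset, Fintype.mem_piFinset]
    constructor
    · rintro ⟨h1, h2⟩ l
      exact mem_filter.2 ⟨h1 l, fun i => h2 i l⟩
    · intro h
      exact ⟨fun l => (mem_filter.1 (h l)).1, fun i l => (mem_filter.1 (h l)).2 i⟩
  have hmain : (∏ l, ∏ j, (Y l j : ℝ)) * ((T.card.descFactorial k : ℕ) : ℝ) * rho X ^ (g * k) =
      ∑ n ∈ inj k T, ∏ l : Fin g, ((∏ j, (Y l j : ℝ)) * rho X ^ k) := by
    rw [sum_const, card_inj, nsmul_eq_mul, prod_mul_distrib, prod_const, card_univ, Fintype.card_fin,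
      ← pow_mul, mul_comm k g]
    ring
  rw [hswap, hmain, ← sum_sub_distrib]
  refine (abs_sum_le_sum_abs _ _).trans ?_
  rw [mul_sum]
  refine sum_le_sum fun n hn => ?_
  rw [mem_inj] at hn
  have hM : ∀ l : Fin g, 0 ≤ (∏ j, (Y l j : ℝ)) * rho X ^ k := fun l => by positivity
  have h1 := prod_close (fun l => (((box (Y l)).filter
        (fun t => ∀ i, (u l (n i) + ev (WW X) t (n i)).natAbs.Prime)).card : ℝ))
    (fun l => (∏ j, (Y l j : ℝ)) * rho X ^ k) δ hδ.le (fun l => Nat.cast_nonneg _) hM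
    (fun l => hX' n hn.2 (fun i => hT _ (hn.1 i)) (fun i => u l (n i))
      (fun i => (hu l _ (hn.1 i)).1) (fun i => (hu l _ (hn.1 i)).2) (Y l) (fun j => hY l j)) univ
  rw [card_univ, Fintype.card_fin] at h1
  refine h1.trans ?_
  have h2 : 0 ≤ ∏ l : Fin g, ((∏ j, (Y l j : ℝ)) * rho X ^ k) := prod_nonneg fun l _ => hM l
  gcongr

end Pool.Agent.Run7.h215.PO
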