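import Pool.Agent.Run7.h385.PO.Stm
import Pool.Agent.H373R2.T7.Crt

/-! Piece TCOUNT of the project PO: the integers of a window at which all the values are coprime to the small primes. -/

set_option autoImplicit false

namespace Pool.Agent.Run7.h215.PO

open Finset
open Pool.Agent.H373R2.T7
open Pool.Agent.Run7.h385.PO

theorem t_TCOUNT : S_TCOUNT := by
  classical
  intro g f w hper m N
  set q : ℕ := ∏ p ∈ pz w, p with hq
  have hprime : ∀ p ∈ pz w, p.Prime := fun p hp => (mem_pz.1 hp).2
  have hq0 : 0 < q := prod_pos fun p hp => (hprime p hp).pos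
  set P : ℕ → Prop := fun n => ∀ l, ∀ p ∈ pz w, ¬ (p : ℤ) ∣ f l n with hP
  have hmul : ∀ l, ∀ p ∈ pz w, ∀ n k : ℕ, (p : ℤ) ∣ f l (n + k * p) - f l n := by
    intro l p hp n k
    induction k with
    | zero => simp
    | succ k ih =>
      have h1 := hper l p hp (n + k * p)
      have h2 : f l (n + (k + 1) * p) - f l n =
          (f l (n + k * p + p) - f l (n + k * p)) + (f l (n + k * p) - f l n) := by
        rw [show n + (k + 1) * p = n + k * p + p by ring]
        ring
      rw [h2]
      exact dvd_add h1 ih
  have hiff : ∀ l, ∀ p ∈ pz w, ∀ n k : ℕ, ((p : ℤ) ∣ f l (n + k * p) ↔ (p : ℤ) ∣ f l n) := by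
    intro l p hp n k
    have := hmul l p hp n k
    constructor
    · intro h
      have := dvd_sub h this
      simpa using this
    · intro h
      have := dvd_add this h
      simpa using this
  have hPper : Function.Periodic P q := by
    intro n
    simp only [hP, eq_iff_iff]
    refine forall_congr' fun l => forall_congr' fun p => forall_congr' fun hp => ?_
    obtain ⟨k, hk⟩ : p ∣ q := dvd_prod_of_mem _ hp
    rw [hk, mul_comm p k, hiff l p hp n k]
  -- the number in a period
  have hG : ((Finset.range q).filter P).card = ∏ p ∈ pz w, (p - omega f p) := by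
    have h := crt_card (fun p a => ∀ l, ¬ (p : ℤ) ∣ f l a) (pz w) hprime
    rw [← hq] at h
    have h1 : (Finset.range q).filter P =
        (Finset.range q).filter (fun n => ∀ p ∈ pz w, ∀ l, ¬ (p : ℤ) ∣ f l (n % p)) := by
      refine filter_congr fun n _ => ?_
      simp only [hP]
      constructor
      · intro h p hp l
        have := h l p hp
        rw [← Nat.mod_add_div n p, mul_comm p, hiff l p hp] at this
        exact this
      · intro h l p hp
        have := h p hp l
        rw [← Nat.mod_add_div n p, mul_comm p, hiff l p hp]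
        exact this
    rw [h1, h]
    refine prod_congr rfl fun p hp => ?_
    have h2 : ((range p).filter (fun a => ∀ l, ¬ (p : ℤ) ∣ f l a)).card + omega f p = p := by
      unfold omega
      have h3 := card_filter_add_card_filter_not (s := range p) (fun n => ∃ l, (p : ℤ) ∣ f l n)
      rw [card_range] at h3
      have h4 : (range p).filter (fun a => ∀ l, ¬ (p : ℤ) ∣ f l a) =
          (range p).filter (fun a => ¬ ∃ l, (p : ℤ) ∣ f l a) := by
        refine filter_congr fun a _ => ?_
        rw [not_exists]
      rw [h4]
      omega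
    omega
  have homega : ∀ p, omega f p ≤ p := by
    intro p
    unfold omega
    exact (card_filter_le _ _).trans (card_range p).le
  set G : ℕ := ∏ p ∈ pz w, (p - omega f p) with hGdef
  have hGq : G ≤ q := by
    rw [← hG]
    exact (card_filter_le _ _).trans (card_range q).le
  have hdens : (∏ p ∈ pz w, (1 - (omega f p : ℝ) / p)) = (G : ℝ) / q := by
    rw [hGdef, hq]
    push_cast
    rw [← prod_div_distrib]
    refine prod_congr rfl fun p hp => ?_
    have hp0 : (p : ℝ) ≠ 0 := by exact_mod_cast (hprime p hp).ne_zero
    rw [Nat.cast_sub (homega p)]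
    field_simp
  -- the count in an interval
  set r := N % q with hr
  set a := N / q with ha
  have hN : N = r + a * q := by
    rw [hr, ha, mul_comm]
    exact (Nat.mod_add_div N q).symm
  have hblock : ∀ k s : ℕ, ((Ico s (s + k * q)).filter P).card = k * G := by
    intro k
    induction k with
    | zero => intro s; simp
    | succ k ih =>
      intro s
      have h1 : Ico s (s + (k + 1) * q) = Ico s (s + q) ∪ Ico (s + q) (s + q + k * q) := by
        rw [Ico_union_Ico_eq_Ico (by omega) (by nlinarith)]
        congr 1
        ring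
      rw [h1, filter_union, card_union_of_disjoint, ih, Nat.filter_Ico_card_eq_of_periodic _ _ _ hPper,
        Nat.count_eq_card_filter_range, hG]
      · ring
      · refine disjoint_filter_filter ?_
        exact Ico_disjoint_Ico_consecutive _ _ _
  have hsplit : Ioc m (m + N) = Ico (m + 1) (m + 1 + r) ∪ Ico (m + 1 + r) (m + 1 + r + a * q) := by
    rw [Ico_union_Ico_eq_Ico (by omega) (by omega)]
    ext x
    rw [mem_Ioc, mem_Ico]
    omega
  have hcount : (((Ioc m (m + N)).filter P).card : ℕ) =
      ((Ico (m + 1) (m + 1 + r)).filter P).card + a * G := by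
    rw [hsplit, filter_union, card_union_of_disjoint, hblock]
    exact disjoint_filter_filter (Ico_disjoint_Ico_consecutive _ _ _)
  have hs : ((Ico (m + 1) (m + 1 + r)).filter P).card ≤ r := by
    refine (card_filter_le _ _).trans ?_
    rw [Nat.card_Ico]
    omega
  have hrq : r < q := Nat.mod_lt _ hq0
  rw [hdens]
  have hgoal : (((Ioc m (m + N)).filter (fun n => ∀ l, ∀ p ∈ pz w, ¬ (p : ℤ) ∣ f l n)).card : ℝ) =
      (((Ico (m + 1) (m + 1 + r)).filter P).card : ℝ) + a * G := by
    exact_mod_cast hcount
  rw [hgoal]
  have hNr : (N : ℝ) = r + a * q := by exact_mod_cast hN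
  have hqr : (0 : ℝ) < q := by exact_mod_cast hq0
  have hmain : (N : ℝ) * ((G : ℝ) / q) = r * ((G : ℝ) / q) + a * G := by
    rw [hNr]
    field_simp
  rw [hmain]
  have hG0 : 0 ≤ (G : ℝ) / q := by positivity
  have hG1 : (G : ℝ) / q ≤ 1 := by
    rw [div_le_one hqr]
    exact_mod_cast hGq
  have hsr : (((Ico (m + 1) (m + 1 + r)).filter P).card : ℝ) ≤ r := by exact_mod_cast hs
  have hs0 : (0 : ℝ) ≤ (((Ico (m + 1) (m + 1 + r)).filter P).card : ℝ) := Nat.cast_nonneg _
  have hr0 : (0 : ℝ) ≤ r := by positivity
  have hrq' : (r : ℝ) ≤ q := by exact_mod_cast hrq.le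
  rw [abs_le]
  constructor
  · nlinarith
  · nlinarith

end Pool.Agent.Run7.h215.PO
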