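import Pool.Agent.Run7.h385.PO.Stm2
import Pool.Agent.Run7.h215.PO.TINY

/-! Piece TINY2 of the project PO: tiny values are rare, second form. -/

set_option autoImplicit false

namespace Pool.Agent.Run7.h215.PO

open Finset
open Pool.Agent.H373R2.T7
open Pool.Agent.Run7.h385.PO

theorem tiny_one2 {g d W : ℕ} (hd : 0 < d) (hW : 1 ≤ W) (a : Fin g → Fin d → ℤ)
    (Y : Fin g → Fin d → ℕ) (n : ℕ) (f : ℤ) (l : Fin g) (w : ℕ) :
    ((bx a Y).filter (fun c => |f + ev W (c l) n| ≤ w)).card *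
      Y l ⟨0, hd⟩ ≤ (2 * w + 1) * (bx a Y).card := by
  classical
  set j0 : Fin d := ⟨0, hd⟩ with hj0
  have hc : (Icc (-(w : ℤ)) w).card = 2 * w + 1 := by
    rw [Int.card_Icc]; omega
  have hI : (Ico (a l j0) (a l j0 + Y l j0)).card = Y l j0 := by
    rw [Int.card_Ico]; omega
  rw [← hc, ← hI, ← card_product, ← card_product]
  refine card_le_card_of_injOn
    (fun q => (f + ev W (q.1 l) n, upd l j0 q.1 q.2)) ?_ ?_
  · rintro ⟨c, x⟩ hq
    simp only [coe_product, Set.mem_prod, mem_coe, mem_filter, mem_Ico, mem_Icc] at hq ⊢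
    obtain ⟨⟨h1, h2⟩, h3⟩ := hq
    refine ⟨abs_le.1 h2, ?_⟩
    rw [mem_bx] at h1 ⊢
    intro l' j'
    by_cases hl : l' = l
    · subst hl
      by_cases hj : j' = j0
      · subst hj
        rw [upd_same]
        exact h3
      · rw [upd_row _ _ _ hj]
        exact h1 _ _
    · rw [upd_other _ _ hl]
      exact h1 _ _
  · rintro ⟨c, x⟩ _ ⟨c', x'⟩ _ h
    simp only [Prod.mk.injEq] at h
    obtain ⟨h1, h2⟩ := h
    have hx : x = x' := by
      have := congrFun (congrFun h2 l) j0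
      rwa [upd_same, upd_same] at this
    have hrow : ∀ j, j ≠ j0 → c l j = c' l j := by
      intro j hj
      have := congrFun (congrFun h2 l) j
      rwa [upd_row _ _ _ hj, upd_row _ _ _ hj] at this
    have hoth : ∀ l', l' ≠ l → c l' = c' l' := by
      intro l' hl
      have := congrFun h2 l'
      rwa [upd_other _ _ hl, upd_other _ _ hl] at this
    have h00 : c l j0 = c' l j0 := by
      have e1 : ∑ j : Fin d, c l j * (n : ℤ) ^ (j : ℕ) =
          c l j0 + ∑ j ∈ univ.erase j0, c l j * (n : ℤ) ^ (j : ℕ) := by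
        rw [← add_sum_erase univ _ (mem_univ j0)]
        simp [hj0]
      have e2 : ∑ j : Fin d, c' l j * (n : ℤ) ^ (j : ℕ) =
          c' l j0 + ∑ j ∈ univ.erase j0, c' l j * (n : ℤ) ^ (j : ℕ) := by
        rw [← add_sum_erase univ _ (mem_univ j0)]
        simp [hj0]
      have e3 : ∑ j ∈ univ.erase j0, c l j * (n : ℤ) ^ (j : ℕ) =
          ∑ j ∈ univ.erase j0, c' l j * (n : ℤ) ^ (j : ℕ) := by
        refine sum_congr rfl fun j hj => ?_
        rw [hrow j (ne_of_mem_erase hj)]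
      unfold ev at h1
      rw [e1, e2, e3] at h1
      have hW0 : (W : ℤ) ≠ 0 := by omega
      have h3 := mul_left_cancel₀ hW0 (add_left_cancel h1)
      linarith
    have hcc : c = c' := by
      funext l' j'
      by_cases hl : l' = l
      · subst hl
        by_cases hj : j' = j0
        · rw [hj]; exact h00
        · exact hrow j' hj
      · rw [hoth l' hl]
    rw [hcc, hx]

theorem t_TINY2 : S_TINY2 := by
  intro g d W hd hW Y u T w Ym hYm hY
  classical
  have hbox : (Fintype.piFinset (fun l => box (Y l))) = bx (fun _ _ => 0) Y := by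
    ext c
    rw [mem_bx, Fintype.mem_piFinset]
    refine forall_congr' fun l => ?_
    unfold Pool.Agent.Run7.h385.PO.box
    rw [Fintype.mem_piFinset]
    refine forall_congr' fun j => ?_
    rw [mem_Ico, zero_add]
  rw [hbox]
  set a : Fin g → Fin d → ℤ := fun _ _ => 0 with ha
  have hsub : (bx a Y).filter (fun c : Fin g → Fin d → ℤ => ∃ n ∈ T, ∃ l,
      |u l n + ev W (c l) n| ≤ w) ⊆
      (T ×ˢ (univ : Finset (Fin g))).biUnion (fun q => (bx a Y).filter
        (fun c => |u q.2 q.1 + ev W (c q.2) q.1| ≤ w)) := by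
    intro c hc
    rw [mem_filter] at hc
    obtain ⟨h1, n, hn, l, h2⟩ := hc
    rw [mem_biUnion]
    exact ⟨(n, l), mem_product.2 ⟨hn, mem_univ _⟩, mem_filter.2 ⟨h1, h2⟩⟩
  have hcard : (∏ l, ∏ j, (Y l j : ℝ)) = ((bx a Y).card : ℝ) := by
    rw [card_bx]
    push_cast
    rfl
  rw [hcard]
  have hYm0 : (0 : ℝ) < Ym := by exact_mod_cast hYm
  have h1 : (((bx a Y).filter (fun c : Fin g → Fin d → ℤ => ∃ n ∈ T, ∃ l,
      |u l n + ev W (c l) n| ≤ w)).card : ℝ) ≤
      ∑ q ∈ T ×ˢ (univ : Finset (Fin g)), (((bx a Y).filter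
        (fun c => |u q.2 q.1 + ev W (c q.2) q.1| ≤ w)).card : ℝ) := by
    have h2 := (card_le_card hsub).trans card_biUnion_le
    exact_mod_cast h2
  have h3 : ∀ q ∈ T ×ˢ (univ : Finset (Fin g)), (((bx a Y).filter
        (fun c => |u q.2 q.1 + ev W (c q.2) q.1| ≤ w)).card : ℝ) ≤
      (2 * w + 1) / Ym * ((bx a Y).card : ℝ) := by
    intro q _
    have h4 := tiny_one2 hd hW a Y q.1 (u q.2 q.1) q.2 w
    have h5 : (((bx a Y).filter
        (fun c => |u q.2 q.1 + ev W (c q.2) q.1| ≤ w)).card : ℝ) * Ym ≤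
        (2 * w + 1) * ((bx a Y).card : ℝ) := by
      have h6 : (((bx a Y).filter
        (fun c => |u q.2 q.1 + ev W (c q.2) q.1| ≤ w)).card : ℝ) * Ym ≤
        (((bx a Y).filter
        (fun c => |u q.2 q.1 + ev W (c q.2) q.1| ≤ w)).card : ℝ) * (Y q.2 ⟨0, hd⟩ : ℝ) := by
        have : (Ym : ℝ) ≤ (Y q.2 ⟨0, hd⟩ : ℝ) := by exact_mod_cast hY _ _
        gcongr
      refine h6.trans ?_
      exact_mod_cast h4
    rw [div_mul_eq_mul_div, le_div_iff₀ hYm0]
    exact h5
  refine h1.trans ((sum_le_sum h3).trans (le_of_eq ?_))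
  rw [sum_const, card_product, card_univ, Fintype.card_fin, nsmul_eq_mul]
  push_cast
  ring

end Pool.Agent.Run7.h215.PO
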